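import Mathlib

namespace Pool.Agent.Results.MP_094caa_co.NotUnimodal

/-- Number of inversions of a permutation of `[n]`. -/
def inv {n : ℕ} (σ : Equiv.Perm (Fin n)) : ℕ :=
  (Finset.univ.filter fun p : Fin n × Fin n => p.1 < p.2 ∧ σ p.2 < σ p.1).card

/-- The pattern `π` occurs in `σ` at the (0-based) position `i`: the block of length `k` of `σ`
starting there fits into `σ` and is order-isomorphic to `π`. -/
def OccursAt {n k : ℕ} (π : Equiv.Perm (Fin k)) (σ : Equiv.Perm (Fin n)) (i : ℕ) : Prop :=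
  ∃ h : i + k ≤ n, ∀ a b : Fin k,
    (σ ⟨i + a, by omega⟩ < σ ⟨i + b, by omega⟩ ↔ π a < π b)

open Classical in
/-- Number of occurrences of the consecutive pattern `π` in `σ`. -/
noncomputable def occ {n k : ℕ} (π : Equiv.Perm (Fin k)) (σ : Equiv.Perm (Fin n)) : ℕ :=
  ((Finset.range (n + 1)).filter fun i => OccursAt π σ i).card

/-- Expected number of occurrences of `π` in a uniformly random permutation of `[n]`
with exactly `m` inversions. -/
noncomputable def E (n m : ℕ) {k : ℕ} (π : Equiv.Perm (Fin k)) : ℚ :=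
  ((∑ σ ∈ Finset.univ.filter (fun σ : Equiv.Perm (Fin n) => inv σ = m), occ π σ : ℕ) : ℚ) /
    ((Finset.univ.filter fun σ : Equiv.Perm (Fin n) => inv σ = m).card : ℚ)

/-- The sequence `a 0, …, a N` is unimodal. -/
def Unimodal (a : ℕ → ℚ) (N : ℕ) : Prop :=
  ∃ j ≤ N, (∀ i, i < j → a i ≤ a (i + 1)) ∧ (∀ i, j ≤ i → i < N → a (i + 1) ≤ a i)

/-! ### list model -/

/-- inversions of a list -/
def invL : List ℕ → ℕ
  | [] => 0
  | a :: l => (l.countP fun x => Nat.blt x a) + invL l

/-- the pattern `1 3 5 4 2` at the start of the list -/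
def startB : List ℕ → Bool
  | a :: b :: c :: d :: e :: _ => Nat.blt a e && Nat.blt e b && Nat.blt b d && Nat.blt d c
  | _ => false

/-- the number of occurrences in a list -/
def occL : List ℕ → ℕ
  | [] => 0
  | a :: l => (if startB (a :: l) then 1 else 0) + occL l

/-- the list of all permutations of `0..6` -/
def perms : List (List ℕ) := List.permutations' [0, 1, 2, 3, 4, 5, 6]

/-- number of permutations with `m` inversions -/
def cnt (m : ℕ) : ℕ := (perms.filter fun l => Nat.beq (invL l) m).length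
/-- total number of occurrences in the permutations with `m` inversions -/
def tot (m : ℕ) : ℕ := ((perms.filter fun l => Nat.beq (invL l) m).map occL).sum

set_option maxRecDepth 100000 in
theorem stat : (cnt 7, tot 7, cnt 8, tot 8, cnt 9, tot 9) = (359, 12, 455, 15, 531, 18) := by
  decide +kernel

set_option maxRecDepth 100000 in
theorem perms_length : perms.length = 5040 := by decide +kernel

theorem perms_nodup : perms.Nodup := by
  have h : ([0, 1, 2, 3, 4, 5, 6] : List ℕ).Nodup := by decide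
  exact (List.permutations_perm_permutations' _).nodup_iff.mp (List.nodup_permutations _ h)

/-- The word of a permutation. -/
def toL (σ : Equiv.Perm (Fin 7)) : List ℕ := List.ofFn (fun i => (σ i : ℕ))

theorem toL_inj : Function.Injective toL := by
  intro σ τ h
  have h2 := List.ofFn_injective h
  ext i
  exact congrFun h2 i

theorem toL_mem (σ : Equiv.Perm (Fin 7)) : toL σ ∈ perms := by
  unfold perms
  rw [List.mem_permutations']
  have h1 : toL σ = (List.ofFn (fun i : Fin 7 => (i : ℕ))).map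
      (fun x => if h : x < 7 then ((σ ⟨x, h⟩ : Fin 7) : ℕ) else 0) := by
    unfold toL
    rw [List.map_ofFn]
    congr 1
    funext i
    simp
  refine (List.perm_ext_iff_of_nodup ?_ ?_).mpr ?_
  · exact List.nodup_ofFn.mpr (fun i j hij => σ.injective (Fin.ext hij))
  · decide
  · intro a
    unfold toL
    rw [List.mem_ofFn]
    constructor
    · rintro ⟨i, rfl⟩
      have := (σ i).isLt
      simp
      omega
    · intro ha
      have ha7 : a < 7 := by
        simp at ha
        omega
      refine ⟨σ.symm ⟨a, ha7⟩, ?_⟩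
      simp

theorem image_toL : Finset.univ.image toL = perms.toFinset := by
  apply Finset.eq_of_subset_of_card_le
  · intro l hl
    rw [Finset.mem_image] at hl
    obtain ⟨σ, _, rfl⟩ := hl
    exact List.mem_toFinset.mpr (toL_mem σ)
  · rw [Finset.card_image_of_injective _ toL_inj, List.toFinset_card_of_nodup perms_nodup,
      perms_length, Finset.card_univ, Fintype.card_perm, Fintype.card_fin]
    decide

theorem countP_ofFn (n : ℕ) (g : Fin n → ℕ) (p : ℕ → Bool) :
    (List.ofFn g).countP p = ∑ i, if p (g i) = true then 1 else 0 := by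
  induction n with
  | zero => simp
  | succ n ih =>
    rw [List.ofFn_succ, List.countP_cons, ih, Fin.sum_univ_succ]
    ring

theorem invL_ofFn (n : ℕ) (f : Fin n → ℕ) :
    invL (List.ofFn f) = ∑ i, ∑ j, if (i < j ∧ f j < f i) then 1 else 0 := by
  induction n with
  | zero => simp [invL]
  | succ n ih =>
    rw [List.ofFn_succ, invL, countP_ofFn, ih, Fin.sum_univ_succ, Fin.sum_univ_succ]
    congr 1
    · simp [Nat.blt_eq]
    · apply Finset.sum_congr rfl
      intro i _
      rw [Fin.sum_univ_succ]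
      simp

theorem inv_eq (σ : Equiv.Perm (Fin 7)) : inv σ = invL (toL σ) := by
  unfold inv toL
  rw [invL_ofFn, Finset.card_filter, ← Finset.univ_product_univ, Finset.sum_product]
  rfl

/-- The pattern `1 3 5 4 2`. -/
def pat : Equiv.Perm (Fin 5) where
  toFun := ![0, 2, 4, 3, 1]
  invFun := ![0, 4, 1, 3, 2]
  left_inv := by decide
  right_inv := by decide

theorem occursAt_iff (σ : Equiv.Perm (Fin 7)) (i : ℕ) (hi : i + 5 ≤ 7) :
    OccursAt pat σ i ↔
      σ ⟨i, by omega⟩ < σ ⟨i + 4, by omega⟩ ∧ σ ⟨i + 4, by omega⟩ < σ ⟨i + 1, by omega⟩ ∧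
      σ ⟨i + 1, by omega⟩ < σ ⟨i + 3, by omega⟩ ∧ σ ⟨i + 3, by omega⟩ < σ ⟨i + 2, by omega⟩ := by
  constructor
  · rintro ⟨_, h⟩
    exact ⟨(h 0 4).mpr (by decide), (h 4 1).mpr (by decide), (h 1 3).mpr (by decide),
      (h 3 2).mpr (by decide)⟩
  · rintro ⟨h1, h2, h3, h4⟩
    refine ⟨hi, ?_⟩
    rw [Fin.lt_def] at h1 h2 h3 h4
    intro a b
    rw [Fin.lt_def]
    fin_cases a <;> fin_cases b <;> simp [pat] <;> omega

theorem not_occursAt (σ : Equiv.Perm (Fin 7)) (i : ℕ) (hi : ¬ i + 5 ≤ 7) :
    ¬ OccursAt pat σ i := fun h => hi h.1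

theorem occ_eq (σ : Equiv.Perm (Fin 7)) : occ pat σ = occL (toL σ) := by
  classical
  unfold occ toL
  rw [Finset.card_filter]
  simp only [Finset.sum_range_succ, Finset.sum_range_zero]
  rw [if_neg (not_occursAt σ 3 (by omega)), if_neg (not_occursAt σ 4 (by omega)),
    if_neg (not_occursAt σ 5 (by omega)), if_neg (not_occursAt σ 6 (by omega)),
    if_neg (not_occursAt σ 7 (by omega))]
  simp only [occursAt_iff σ 0 (by omega), occursAt_iff σ 1 (by omega),
    occursAt_iff σ 2 (by omega)]
  simp only [List.ofFn_succ, List.ofFn_zero, occL, startB]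
  simp [Nat.blt_eq, and_assoc]
  rw [add_assoc]

theorem sum_eq (m : ℕ) (f : List ℕ → ℕ) :
    ∑ σ ∈ Finset.univ.filter (fun σ : Equiv.Perm (Fin 7) => inv σ = m), f (toL σ)
      = ((perms.filter fun l => Nat.beq (invL l) m).map f).sum := by
  have h1 : ((perms.filter fun l => Nat.beq (invL l) m).map f).sum
      = ∑ l ∈ (perms.filter fun l => Nat.beq (invL l) m).toFinset, f l :=
    (List.sum_toFinset f (perms_nodup.filter _)).symm
  rw [h1, List.toFinset_filter, ← image_toL, Finset.filter_image,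
    Finset.sum_image (fun _ _ _ _ h => toL_inj h)]
  apply Finset.sum_congr _ (fun _ _ => rfl)
  ext σ
  simp [inv_eq]

theorem E_eq (m : ℕ) : E 7 m pat = (tot m : ℚ) / (cnt m : ℚ) := by
  unfold E
  congr 2
  · rw [tot, ← sum_eq]
    exact Finset.sum_congr rfl (fun σ _ => occ_eq σ)
  · rw [cnt, Finset.card_eq_sum_ones, sum_eq m (fun _ => 1)]
    simp

theorem result :
    (∃ π : Equiv.Perm (Fin 5),
      E 7 7 π = 12 / 359 ∧ E 7 8 π = 3 / 91 ∧ E 7 9 π = 2 / 59 ∧
      E 7 7 π > E 7 8 π ∧ E 7 8 π < E 7 9 π) ∧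
    ¬ (∀ (k : ℕ) (π : Equiv.Perm (Fin k)) (n : ℕ), k + 2 ≤ n →
      Unimodal (fun m => E n m π) (n.choose 2)) := by
  have hs := stat
  simp only [Prod.mk.injEq] at hs
  obtain ⟨h1, h2, h3, h4, h5, h6⟩ := hs
  have e7 : E 7 7 pat = 12 / 359 := by rw [E_eq, h1, h2]; norm_num
  have e8 : E 7 8 pat = 3 / 91 := by rw [E_eq, h3, h4]; norm_num
  have e9 : E 7 9 pat = 2 / 59 := by rw [E_eq, h5, h6]; norm_num
  refine ⟨⟨pat, e7, e8, e9, ?_, ?_⟩, ?_⟩
  · rw [e7, e8]; norm_num
  · rw [e8, e9]; norm_num
  · intro h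
    obtain ⟨j, _, hup, hdown⟩ := h 5 pat 7 (by norm_num)
    rcases Nat.lt_or_ge 7 j with hj | hj
    · have := hup 7 hj
      simp only at this
      rw [e7, e8] at this
      norm_num at this
    · have := hdown 8 (by omega) (by decide)
      simp only at this
      rw [e8, e9] at this
      norm_num at this

end Pool.Agent.Results.MP_094caa_co.NotUnimodal
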